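import Mathlib

namespace Pool.Agent.Results.MP_389529_an.LinearGrowth

open Finset

section defs
variable {X : Type} [NormedAddCommGroup X] [NormedSpace ℂ X]

/-- The `k`-th power of the resolvent has norm at most `M / (|l| - 1) ^ k`. -/
def ResBd (T : X →L[ℂ] X) (M : ℝ) (k : ℕ) (l : ℂ) : Prop :=
  ‖resolvent T l ^ k‖ ≤ M / (‖l‖ - 1) ^ k

/-- `T` is strongly Kreiss bounded with constant at most `M`. -/
def SK (T : X →L[ℂ] X) (M : ℝ) : Prop :=
  spectrum ℂ T ⊆ Metric.closedBall 0 1 ∧ ∀ k, 1 ≤ k → ∀ l : ℂ, 1 < ‖l‖ → ResBd T M k l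

/-- All powers of `T` have norm at most `B`. -/
def PowBd (T : X →L[ℂ] X) (B : ℝ) : Prop := ∀ n, 1 ≤ n → ‖T ^ n‖ ≤ B

end defs

/-- Admissible exponents. -/
def Admissible (θ : ℝ) : Prop :=
  ∀ M, 1 ≤ M → ∃ C : ℝ, ∀ d : ℕ, 1 ≤ d → ∀ (X : Type) [NormedAddCommGroup X] [NormedSpace ℂ X],
    Module.finrank ℂ X = d → ∀ T : X →L[ℂ] X, SK T M → PowBd T (C * (d : ℝ) ^ θ)

theorem psi (x y : ℝ) (hy : 0 < y) (h : 4 * y ≤ x) :
    0 ≤ x / (1 + x) - y / (1 + y) ∧
    (x ≤ 1 → x ≤ 6 * (x / (1 + x) - y / (1 + y))) ∧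
    (1 ≤ x → y ≤ 1 → 1 ≤ 6 * (x / (1 + x) - y / (1 + y))) ∧
    (1 ≤ y → 1 / y ≤ 6 * (x / (1 + x) - y / (1 + y))) := by
  have hx : 0 < x := by linarith
  have e : x / (1 + x) - y / (1 + y) = (x - y) / ((1 + x) * (1 + y)) := by field_simp; ring
  rw [e, ← mul_div_assoc]
  refine ⟨div_nonneg (by linarith) (by positivity), fun h1 => ?_, fun h1 h2 => ?_, fun h1 => ?_⟩
  · rw [le_div_iff₀ (by positivity)]
    have : (1 + x) * (1 + y) ≤ 2 * 2 := mul_le_mul (by linarith) (by linarith) (by linarith) (by norm_num)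
    nlinarith
  · rw [le_div_iff₀ (by positivity)]; nlinarith
  · rw [div_le_div_iff₀ hy (by positivity)]; nlinarith

theorem sumb (ε G D : ℕ → ℝ) (q δ : ℝ) (hq : 0 < q) (h0 : ∀ j, 0 < ε j)
    (h1 : ∀ j, ε (j + 1) ≤ ε j ^ 2) (h2 : ∀ j, 4 * ε (j + 1) ≤ ε j) (g0 : ∀ j, 0 ≤ G j)
    (g1 : ∀ j, G j ≤ 1) (g2 : ∀ j, G j * (q * |δ - ε j|) ≤ 1) (d1 : ∀ j, D j ≤ G j + G (j + 1))
    (d2 : ∀ j, D j ≤ 2 * q ^ 2 * ε j) (n : ℕ) : ∑ j ∈ range n, D j ≤ 77 := by
  let x : ℕ → ℝ := fun j => q * ε j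
  let χ : ℕ → ℝ := fun j => if δ ≤ 2 * ε j then 1 else 0
  let Ψ : ℕ → ℝ := fun j => 24 * (x j / (1 + x j)) + χ j
  have x0 : ∀ j, 0 < x j := fun j => mul_pos hq (h0 j)
  have P := fun j => psi (x j) (x (j + 1)) (x0 _) (by simp only [x]; nlinarith [h2 j])
  have c0 : ∀ j, χ (j + 1) ≤ χ j := fun j => by
    simp only [χ]
    split_ifs with a b
    · rfl
    · exact absurd (by linarith [h2 j, h0 (j + 1)]) b
    · norm_num
    · rfl
  have c1 : ∀ j, G j ≤ 4 * (1 / x j) + (χ j - χ (j + 1)) := fun j => by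
    have := x0 j
    rcases lt_or_ge |δ - ε j| (ε j / 4) with h | h
    · obtain ⟨a, b⟩ := abs_lt.1 h
      simp only [χ]
      rw [if_pos (by linarith [h0 j]), if_neg (by linarith [h2 j, h0 (j + 1)])]
      linarith [g1 j, (by positivity : 0 < 4 * (1 / x j))]
    · refine le_trans ?_ (le_add_of_nonneg_right (sub_nonneg.2 (c0 j)))
      rw [mul_one_div, le_div_iff₀ this]
      nlinarith [g2 j, mul_le_mul_of_nonneg_left (mul_le_mul_of_nonneg_left h hq.le) (g0 j)]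
  have key : ∀ j, D (j + 1) ≤ Ψ j - Ψ (j + 3) := fun j => by
    obtain ⟨a0, a1, a2, a3⟩ := P j
    obtain ⟨b0, -, b2, b3⟩ := P (j + 1)
    have e0 := (P (j + 1 + 1)).1
    have e1 := c0 j
    have e2 := c0 (j + 1)
    have e3 := c0 (j + 1 + 1)
    have e4 : D (j + 1) ≤ 2 := by linarith [d1 (j + 1), g1 (j + 1), g1 (j + 1 + 1)]
    simp only [Ψ]
    rcases le_total (x j) 1 with h | h
    · have : D (j + 1) ≤ 2 * x j ^ 2 := (d2 _).trans (by
        simp only [x]; nlinarith [mul_le_mul_of_nonneg_left (h1 j) (sq_nonneg q)])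
      nlinarith [a1 h, x0 j]
    rcases le_total (x (j + 1)) 1 with h' | h'
    · linarith [a2 h h']
    rcases le_total (x (j + 1 + 1)) 1 with h'' | h''
    · linarith [b2 h' h'']
    · linarith [a3 h', b3 h'', d1 (j + 1), c1 (j + 1), c1 (j + 1 + 1)]
  have b : ∀ j, 0 ≤ Ψ j ∧ Ψ j ≤ 25 := fun j => by
    have := x0 j
    have h1 : x j / (1 + x j) ≤ 1 := (div_le_one (by positivity)).2 (by linarith)
    have h2 : 0 ≤ x j / (1 + x j) := by positivity
    simp only [Ψ, χ]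
    split_ifs <;> constructor <;> linarith
  have s : ∀ n, ∑ j ∈ range n, D (j + 1) ≤ Ψ 0 + Ψ 1 + Ψ 2 - (Ψ n + Ψ (n + 1) + Ψ (n + 2)) := by
    intro n
    induction n with
    | zero => simp
    | succ n ih => rw [sum_range_succ]; linarith [key n]
  cases n with
  | zero => simp
  | succ n =>
    rw [sum_range_succ']
    linarith [s n, b 0, b 1, b 2, b n, b (n + 1), b (n + 2), d1 0, g1 0, g1 (0 + 1)]

theorem pow_lip (a b : ℂ) (ha : ‖a‖ ≤ 1) (hb : ‖b‖ ≤ 1) (k : ℕ) :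
    ‖a ^ k - b ^ k‖ ≤ k * ‖a - b‖ := by
  induction k with
  | zero => simp
  | succ k ih =>
    have : a ^ (k + 1) - b ^ (k + 1) = a * (a ^ k - b ^ k) + (a - b) * b ^ k := by ring
    rw [this]
    refine (norm_add_le _ _).trans ?_
    rw [norm_mul, norm_mul, norm_pow]
    push_cast
    nlinarith [mul_le_mul_of_nonneg_right ha (norm_nonneg (a ^ k - b ^ k)),
      mul_le_mul_of_nonneg_left (pow_le_one₀ (norm_nonneg b) hb (n := k)) (norm_nonneg (a - b))]

theorem geo (ρ : ℝ) (u w : ℂ) (hu : ‖u‖ = 1) (hw : ‖w‖ = 1) :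
    ‖ρ * u - w‖ ^ 2 = (ρ - 1) ^ 2 + ρ * ‖u - w‖ ^ 2 := by
  have a : u.re * u.re + u.im * u.im = 1 := by rw [← Complex.normSq_apply, ← Complex.sq_norm, hu]; simp
  have b : w.re * w.re + w.im * w.im = 1 := by rw [← Complex.normSq_apply, ← Complex.sq_norm, hw]; simp
  simp only [Complex.sq_norm, Complex.normSq_apply]
  simp
  linear_combination (ρ ^ 2 - ρ) * a + (1 - ρ) * b

/-- orders -/
def m : ℕ → ℕ
  | 0 => 1
  | j + 1 => 16 * m j ^ 2

theorem m_pos (j : ℕ) : 0 < m j := by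
  induction j with
  | zero => exact one_pos
  | succ j ih => unfold m; positivity

/-- eigenvalues -/
noncomputable def w (j : ℕ) : ℂ := Complex.exp (Complex.I * (Real.pi / m j : ℝ))

theorem norm_w (j : ℕ) : ‖w j‖ = 1 := Complex.norm_exp_I_mul_ofReal _

theorem w_pow (j n : ℕ) : w j ^ n = Complex.exp (Complex.I * (n * (Real.pi / m j) : ℝ)) := by
  rw [w, ← Complex.exp_nat_mul]; congr 1; push_cast; ring

theorem w_le (j n : ℕ) : ‖w j ^ n - 1‖ ≤ 4 * n / m j := by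
  have : (0 : ℝ) < m j := by exact_mod_cast m_pos j
  rw [w_pow]
  refine Real.norm_exp_I_mul_ofReal_sub_one_le.trans ?_
  rw [Real.norm_of_nonneg (by positivity), ← mul_div_assoc, mul_comm]
  gcongr
  exact Real.pi_le_four

theorem le_w (j : ℕ) : 2 / (m j : ℝ) ≤ ‖w j - 1‖ := by
  have h : (1 : ℝ) ≤ m j := by exact_mod_cast m_pos j
  have := Real.mul_le_sin (x := Real.pi / m j / 2) (by positivity) (by
    gcongr; exact div_le_self Real.pi_pos.le h)
  rw [w, Complex.norm_exp_I_mul_ofReal_sub_one]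
  refine le_trans ?_ (le_abs_self _)
  have e : 2 / Real.pi * (Real.pi / m j / 2) = 1 / m j := by field_simp
  rw [e] at this
  rw [div_eq_mul_one_div]
  linarith

theorem w_m (j : ℕ) : w j ^ m j = -1 := by
  have : (m j : ℝ) ≠ 0 := by exact_mod_cast (m_pos j).ne'
  rw [w_pow, mul_div_cancel₀ _ this, mul_comm, Complex.exp_pi_mul_I]

theorem w_m' (j i : ℕ) (h : j < i) : w j ^ m i = 1 := by
  induction i, h using Nat.le_induction with
  | base => rw [m, show 16 * m j ^ 2 = m j * (2 * (8 * m j)) by ring, pow_mul, w_m, pow_mul]; simp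
  | succ i _ ih => rw [m, show 16 * m i ^ 2 = m i * (16 * m i) by ring, pow_mul, ih, one_pow]

/-- times -/
def N : ℕ → ℕ
  | 0 => 0
  | d + 1 => N d + if Even d then 0 else m d

theorem N_le (d : ℕ) : 8 * N d ≤ m d := by
  induction d with
  | zero => simp [N]
  | succ d ih => have := m_pos d; rw [N, m]; split_ifs <;> nlinarith

theorem w_N (j d : ℕ) (h : j < d) : w j ^ N d = w j ^ N j * (-1) ^ j := by
  induction d, h using Nat.le_induction with
  | base =>
    rw [N, pow_add]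
    split_ifs with h
    · rw [h.neg_one_pow, pow_zero]
    · rw [(Nat.not_even_iff_odd.1 h).neg_one_pow, w_m]
  | succ d hd ih => rw [N, pow_add, ih]; split_ifs <;> simp [w_m' j d hd]

theorem re_w (j d : ℕ) (h : j < d) : 1 / 2 ≤ (w j ^ (N d + m d) * (-1) ^ j).re := by
  rw [pow_add, w_m' j d h, mul_one, w_N j d h, mul_assoc, ← mul_pow]
  have h1 := w_le j (N j)
  have h2 : (8 : ℝ) * N j ≤ m j := by exact_mod_cast N_le j
  have h3 : (0 : ℝ) < m j := by exact_mod_cast m_pos j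
  have h4 : 4 * (N j : ℝ) / m j ≤ 1 / 2 := by rw [div_le_iff₀ h3]; linarith
  have := (abs_le.1 ((Complex.abs_re_le_norm _).trans (h1.trans h4))).1
  simp only [Complex.sub_re, Complex.one_re] at this
  simp only [mul_neg, mul_one, neg_neg, one_pow]
  linarith

theorem var (l : ℂ) (hl : 1 < ‖l‖) (k : ℕ) (hk : 1 ≤ k) (n : ℕ) :
    ‖((l - w n)⁻¹) ^ k‖ + ∑ j ∈ range n, ‖((l - w j)⁻¹) ^ k - ((l - w (j + 1))⁻¹) ^ k‖ ≤
      78 / (‖l‖ - 1) ^ k := by
  set ρ := ‖l‖ with hρ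
  have r0 : 0 < ρ - 1 := by linarith
  have rc : (ρ : ℂ) ≠ 0 := by exact_mod_cast (by linarith : ρ ≠ 0)
  set u := l / ρ with hu
  have nu : ‖u‖ = 1 := by rw [hu, norm_div, Complex.norm_real, norm_norm, div_self (by linarith)]
  have G := fun j => geo ρ u (w j) nu (norm_w j)
  rw [show ρ * u = l by rw [hu]; field_simp] at G
  have a1 : ∀ j, ρ - 1 ≤ ‖l - w j‖ := fun j => by simpa [norm_w] using norm_sub_norm_le l (w j)
  have a0 : ∀ j, l - w j ≠ 0 := fun j => norm_pos_iff.1 (r0.trans_le (a1 j))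
  let a : ℕ → ℂ := fun j => ((ρ - 1 : ℝ) : ℂ) * (l - w j)⁻¹
  have na : ∀ j, ‖a j‖ = (ρ - 1) / ‖l - w j‖ := fun j => by
    simp only [a, norm_mul, norm_inv, Complex.norm_real, Real.norm_of_nonneg r0.le, div_eq_mul_inv]
  have a2 : ∀ j, ‖a j‖ ≤ 1 := fun j => by rw [na, div_le_one (r0.trans_le (a1 j))]; exact a1 j
  have hk' : (0 : ℝ) < k := by exact_mod_cast hk
  have e0 : ∀ j, 0 < ‖w j - 1‖ := fun j =>
    lt_of_lt_of_le (by have := m_pos j; positivity) (le_w j)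
  have e1 : ∀ j, ‖w (j + 1) - 1‖ ≤ 1 / 4 * (1 / m j) ^ 2 := fun j => by
    have := w_le (j + 1) 1
    rw [pow_one, m] at this
    refine this.trans (le_of_eq ?_)
    push_cast; ring
  have e2 : ∀ j, 2 * (1 / (m j : ℝ)) ≤ ‖w j - 1‖ := fun j => by rw [mul_one_div]; exact le_w j
  have e3 : ∀ j, 0 < 1 / (m j : ℝ) ∧ 1 / (m j : ℝ) ≤ 1 := fun j => by
    have h : (1 : ℝ) ≤ m j := by exact_mod_cast m_pos j
    exact ⟨by positivity, (div_le_one (by linarith)).2 h⟩
  have e4 : ∀ j, 4 * ‖w (j + 1) - 1‖ ≤ ‖w j - 1‖ := fun j => by nlinarith [e1 j, e2 j, e3 j]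
  have S := sumb (fun j => ‖w j - 1‖) (fun j => ‖a j ^ k‖) (fun j => ‖a j ^ k - a (j + 1) ^ k‖)
    √(k / (ρ - 1)) ‖u - 1‖ (Real.sqrt_pos.2 (by positivity)) e0
    (fun j => by nlinarith [e1 j, e2 j, e3 j]) e4 (fun j => norm_nonneg _)
    (fun j => by rw [norm_pow]; exact pow_le_one₀ (norm_nonneg _) (a2 j)) (fun j => ?_)
    (fun j => norm_sub_le _ _) (fun j => ?_) n
  · have e : ∀ j, ((l - w j)⁻¹) ^ k = (((ρ - 1) ^ k : ℝ) : ℂ)⁻¹ * a j ^ k := fun j => by
      have : ((ρ - 1 : ℝ) : ℂ) ≠ 0 := by exact_mod_cast r0.ne'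
      simp only [a, mul_pow, Complex.ofReal_pow]
      field_simp
    simp only [e, ← mul_sub, norm_mul, ← mul_sum, norm_inv, Complex.norm_real]
    rw [Real.norm_of_nonneg (by positivity), ← mul_add, inv_mul_eq_div]
    refine div_le_div_of_nonneg_right ?_ (by positivity)
    have : ‖a n ^ k‖ ≤ 1 := by rw [norm_pow]; exact pow_le_one₀ (norm_nonneg _) (a2 n)
    linarith
  · have b1 : |‖u - 1‖ - ‖w j - 1‖| ≤ ‖u - w j‖ := by
      simpa using abs_norm_sub_norm_le (u - 1) (w j - 1)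
    refine le_trans (mul_le_mul_of_nonneg_left (mul_le_mul_of_nonneg_left b1 (Real.sqrt_nonneg _))
      (norm_nonneg _)) (le_of_sq_le_sq ?_ zero_le_one)
    have b2 : ‖a j‖ ^ 2 * (1 + ‖u - w j‖ ^ 2 / (ρ - 1)) ≤ 1 := by
      rw [na, div_pow, G, div_mul_eq_mul_div, div_le_one (by positivity)]
      have : (ρ - 1) ^ 2 * (‖u - w j‖ ^ 2 / (ρ - 1)) = (ρ - 1) * ‖u - w j‖ ^ 2 := by field_simp
      nlinarith [sq_nonneg ‖u - w j‖]
    have b3 := one_add_mul_le_pow (a := ‖u - w j‖ ^ 2 / (ρ - 1))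
      (le_trans (by norm_num) (by positivity : (0 : ℝ) ≤ _)) k
    have b4 := pow_le_one₀ (by positivity) b2 (n := k)
    rw [mul_pow] at b4
    rw [mul_pow ‖a j ^ k‖, mul_pow √_, Real.sq_sqrt (by positivity), norm_pow, ← pow_mul, mul_comm k 2, pow_mul,
      one_pow]
    refine le_trans (mul_le_mul_of_nonneg_left (le_trans ?_ b3) (by positivity)) b4
    rw [div_mul_eq_mul_div, mul_div_assoc]
    linarith
  · rw [Real.sq_sqrt (by positivity)]
    refine (pow_lip _ _ (a2 _) (a2 _) k).trans ?_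
    have b1 : a j - a (j + 1) = a j * (l - w (j + 1))⁻¹ * (w j - 1 - (w (j + 1) - 1)) := by
      have := a0 j
      have := a0 (j + 1)
      simp only [a]; field_simp; ring
    have b2 : ‖w j - 1 - (w (j + 1) - 1)‖ ≤ 2 * ‖w j - 1‖ := by
      linarith [norm_sub_le (w j - 1) (w (j + 1) - 1), e4 j, e0 (j + 1)]
    have b3 : ‖(l - w (j + 1))⁻¹‖ ≤ (ρ - 1)⁻¹ := by rw [norm_inv]; exact inv_anti₀ r0 (a1 _)
    rw [b1, norm_mul, norm_mul]
    refine (mul_le_mul_of_nonneg_left (mul_le_mul (mul_le_mul (a2 j) b3 (norm_nonneg _) zero_le_one)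
      b2 (norm_nonneg _) (by positivity)) hk'.le).trans (le_of_eq (by ring))

/-- multipliers of the summing basis on sequences -/
def B (μ t : ℕ → ℂ) (j : ℕ) : ℂ := μ j * t j + ∑ i ∈ range j, (μ i - μ (i + 1)) * t i

theorem B_succ (μ t : ℕ → ℂ) (j : ℕ) : B μ t (j + 1) = B μ t j + μ (j + 1) * (t (j + 1) - t j) := by
  simp only [B, sum_range_succ]; ring

theorem B_mul (μ ν t : ℕ → ℂ) (j : ℕ) : B μ (B ν t) j = B (μ * ν) t j := by
  induction j with
  | zero => simp [B, mul_assoc]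
  | succ j ih => rw [B_succ, B_succ, B_succ, ih]; simp [mul_assoc]

/-- extension by zero -/
def ex {d : ℕ} (s : Fin d → ℂ) (i : ℕ) : ℂ := if h : i < d then s ⟨i, h⟩ else 0

theorem B_ex {d : ℕ} (μ t : ℕ → ℂ) (j : Fin d) : B μ (ex fun i : Fin d => t i) j = B μ t j := by
  simp only [B, ex, j.2, dite_true]
  congr 1
  exact sum_congr rfl fun i hi => by rw [dif_pos ((mem_range.1 hi).trans j.2)]

/-- multipliers as operators -/
noncomputable def A (d : ℕ) : (ℕ → ℂ) →ₐ[ℂ] ((Fin d → ℂ) →L[ℂ] (Fin d → ℂ)) :=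
  AlgHom.ofLinearMap
    { toFun := fun μ => LinearMap.toContinuousLinearMap
        { toFun := fun s j => B μ (ex s) j
          map_add' := fun s t => funext fun j => by
            have : ∀ i, ex (s + t) i = ex s i + ex t i := fun i => by unfold ex; split_ifs <;> simp
            simp only [B, this, mul_add, sum_add_distrib, Pi.add_apply]; ring
          map_smul' := fun c s => funext fun j => by
            have : ∀ i, ex (c • s) i = c * ex s i := fun i => by unfold ex; split_ifs <;> simp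
            simp only [B, this, Pi.smul_apply, smul_eq_mul, RingHom.id_apply, mul_add, mul_sum,
              mul_left_comm] }
      map_add' := fun μ ν => by
        ext s j
        simp only [B, add_sub_add_comm, add_mul, sum_add_distrib, Pi.add_apply,
          LinearMap.coe_toContinuousLinearMap', LinearMap.coe_mk, AddHom.coe_mk,
          ContinuousLinearMap.add_apply]
        ring
      map_smul' := fun c μ => by
        ext s j
        simp [B, ← mul_sub, mul_add, mul_sum, mul_assoc] }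
    (by ext s j; simp [B, ex])
    fun μ ν => by
      ext s j
      exact ((B_ex μ (B ν (ex s)) j).trans (B_mul μ ν _ j)).symm

theorem A_apply (d : ℕ) (μ : ℕ → ℂ) (s : Fin d → ℂ) (j : Fin d) : A d μ s j = B μ (ex s) j := rfl

theorem A_le (d : ℕ) (μ : ℕ → ℂ) (c : ℝ)
    (h : ∀ n, ‖μ n‖ + ∑ j ∈ range n, ‖μ j - μ (j + 1)‖ ≤ c) : ‖A d μ‖ ≤ c := by
  have hc : 0 ≤ c := le_trans (by positivity) (h 0)
  refine ContinuousLinearMap.opNorm_le_bound _ hc fun s =>
    (pi_norm_le_iff_of_nonneg (by positivity)).2 fun j => ?_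
  have e : ∀ i, ‖ex s i‖ ≤ ‖s‖ := fun i => by
    unfold ex; split_ifs
    · exact norm_le_pi_norm _ _
    · simp
  refine le_trans ?_ (mul_le_mul_of_nonneg_right (h j) (norm_nonneg _))
  rw [A_apply, B, add_mul, sum_mul]
  refine norm_add_le_of_le ?_ (norm_sum_le_of_le _ fun i _ => ?_) <;> rw [norm_mul] <;>
    exact mul_le_mul_of_nonneg_left (e _) (norm_nonneg _)

theorem sk (d : ℕ) : SK (A d w) 78 := by
  have key : ∀ l : ℂ, 1 < ‖l‖ → ∃ u : ((Fin d → ℂ) →L[ℂ] (Fin d → ℂ))ˣ,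
      (u : _ →L[ℂ] _) = algebraMap ℂ _ l - A d w ∧ (↑u⁻¹ : _ →L[ℂ] _) = A d fun j => (l - w j)⁻¹ := by
    intro l hl
    have a0 : ∀ j, l - w j ≠ 0 := fun j h => by rw [sub_eq_zero.1 h, norm_w] at hl; exact hl.false
    have e : algebraMap ℂ _ l - A d w = A d fun j => l - w j := by
      rw [← (A d).commutes, ← map_sub]; rfl
    refine ⟨⟨A d fun j => l - w j, A d fun j => (l - w j)⁻¹, ?_, ?_⟩, e.symm, rfl⟩ <;>
      rw [← map_mul, ← map_one (A d)] <;> congr 1 <;> ext j <;> simp [a0 j]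
  refine ⟨fun l hl => ?_, fun k hk l hl => ?_⟩
  · by_contra h
    obtain ⟨u, hu, -⟩ := key l (by simpa using h)
    exact hl (hu ▸ u.isUnit : IsUnit _)
  · obtain ⟨u, hu, hu'⟩ := key l hl
    rw [ResBd, resolvent, ← hu, Ring.inverse_unit, hu', ← map_pow]
    exact A_le _ _ _ (var l hl k hk)

theorem big (d : ℕ) : ((d + 1 : ℕ) : ℝ) / 2 ≤ ‖A (d + 1) w ^ (N (d + 1) + m (d + 1))‖ := by
  set n := N (d + 1) + m (d + 1)
  have h : ∀ j ≤ d, ((j + 1 : ℕ) : ℝ) / 2 ≤ (B (w ^ n) (fun i => (-1) ^ i) j).re := by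
    intro j
    induction j with
    | zero => intro _; simpa [B] using re_w 0 (d + 1) (by omega)
    | succ j ih =>
      intro hj
      have h1 := re_w (j + 1) (d + 1) (by omega)
      have e : (w ^ n) (j + 1) * ((-1) ^ (j + 1) - (-1) ^ j) =
          w (j + 1) ^ n * (-1) ^ (j + 1) + w (j + 1) ^ n * (-1) ^ (j + 1) := by
        rw [Pi.pow_apply]; ring
      rw [B_succ, e, Complex.add_re, Complex.add_re]
      push_cast at ih ⊢
      linarith [ih (by omega)]
  have h1 := (A (d + 1) w ^ n).le_opNorm fun i => (-1) ^ (i : ℕ)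
  have h2 : ‖fun i : Fin (d + 1) => (-1 : ℂ) ^ (i : ℕ)‖ ≤ 1 :=
    (pi_norm_le_iff_of_nonneg zero_le_one).2 fun i => by simp
  have h3 := norm_le_pi_norm ((A (d + 1) w ^ n) fun i => (-1) ^ (i : ℕ)) (Fin.last d)
  rw [← map_pow, A_apply, B_ex (w ^ n) fun i => (-1) ^ i] at h3
  rw [← map_pow] at h1 ⊢
  refine (h d le_rfl).trans ((Complex.re_le_norm _).trans (h3.trans (h1.trans ?_)))
  exact mul_le_of_le_one_right (norm_nonneg _) h2

theorem result (θ : ℝ) (hθ : θ < 1) : ¬ Admissible θ := by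
  intro h
  obtain ⟨C, hC⟩ := h 78 (by norm_num)
  obtain ⟨d, hd⟩ := (((tendsto_rpow_atTop (sub_pos.2 hθ)).comp (tendsto_natCast_atTop_atTop.comp
    (Filter.tendsto_add_atTop_nat 1))).eventually_gt_atTop (2 * C)).exists
  have h1 := (big d).trans (hC (d + 1) (by omega) (Fin (d + 1) → ℂ) (by simp) _ (sk _) _
    (by have := m_pos (d + 1); omega))
  have h2 : (0 : ℝ) < (d + 1 : ℕ) := by positivity
  have hd : 2 * C < ((d + 1 : ℕ) : ℝ) ^ (1 - θ) := hd
  rw [Real.rpow_sub h2, Real.rpow_one, lt_div_iff₀ (by positivity)] at hd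
  linarith

end Pool.Agent.Results.MP_389529_an.LinearGrowth
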